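import Mathlib
import Pool.Agent.D0H34.KC.Stm

set_option autoImplicit false

/-! # Module CPX of project KC (helper34), part (iv): the complex roots are bounded -/

open Polynomial

namespace Pool.Agent.D0H12.KCQ

open Pool.Agent.D0H34.KC

theorem geom4 (R : ℝ) (hR : 0 ≤ R) (D : ℕ) :
    ∑ j ∈ Finset.range D, (R / 4) ^ (D - j) * R ^ j ≤ R ^ D / 3 := by
  induction D with
  | zero => simp
  | succ D ih =>
    rw [Finset.sum_range_succ]
    have h1 : ∑ j ∈ Finset.range D, (R / 4) ^ (D + 1 - j) * R ^ j =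
        (R / 4) * ∑ j ∈ Finset.range D, (R / 4) ^ (D - j) * R ^ j := by
      rw [Finset.mul_sum]
      apply Finset.sum_congr rfl
      intro j hj
      have hj' := Finset.mem_range.1 hj
      rw [show D + 1 - j = (D - j) + 1 by omega, pow_succ]
      ring
    rw [h1, show D + 1 - D = 1 by omega, pow_one]
    have h2 : (R / 4) * ∑ j ∈ Finset.range D, (R / 4) ^ (D - j) * R ^ j ≤ (R / 4) * (R ^ D / 3) :=
      mul_le_mul_of_nonneg_left ih (by positivity)
    have h3 : R ^ (D + 1) / 3 = (R / 4) * (R ^ D / 3) + R / 4 * R ^ D := by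
      rw [pow_succ]; ring
    rw [h3]
    linarith

theorem aeval_pol {k : ℕ} (a : Fin k → ℤ) (g : ℤ[X]) (c : ℤ) (z : ℂ) :
    aeval z (pol a g c) = (∏ i, (z - (a i : ℂ))) * aeval z g + (c : ℂ) := by
  unfold pol
  rw [map_add, map_mul, map_prod, aeval_C]
  simp

/-- **CPX (iv).** -/
theorem cpx4 (n k H K : ℕ) (a : Fin k → ℤ) (c : ℤ) (g : ℤ[X]) (hkn : k + 1 ≤ n) (hH : 1 ≤ H)
    (hg : g.Monic) (hd : g.natDegree = n - k)
    (hgj : ∀ j < n - k, 0 ≤ g.coeff j ∧ g.coeff j ≤ (H : ℤ) ^ (n - k - j))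
    (ha : ∀ i, |a i| ≤ H) (hc1 : (10 * H : ℤ) ^ n < c) (hc2 : c ≤ (K * H : ℤ) ^ n) :
    ∀ z : ℂ, aeval z (pol a g c) = 0 → ‖z‖ ≤ 4 * K * H := by
  intro z hz
  by_contra hcon
  push Not at hcon
  set R : ℝ := ‖z‖ with hR
  have hH1 : (1 : ℝ) ≤ H := by exact_mod_cast hH
  -- `K ≥ 10`
  have hKH : (10 * H : ℤ) < K * H := by
    by_contra h
    push Not at h
    have h1 : ((K * H : ℤ)) ^ n ≤ (10 * H : ℤ) ^ n :=
      pow_le_pow_left₀ (by positivity) h n
    linarith
  have hKH' : (10 * H : ℝ) < K * H := by exact_mod_cast hKH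
  have hR4 : 4 * (H : ℝ) ≤ R := by nlinarith
  have hR0 : 0 < R := by linarith
  -- the product
  have hA : (3 / 4 * R) ^ k ≤ ‖∏ i, (z - (a i : ℂ))‖ := by
    rw [norm_prod]
    calc (3 / 4 * R) ^ k = ∏ _i : Fin k, (3 / 4 * R) := by
          rw [Finset.prod_const, Finset.card_univ, Fintype.card_fin]
      _ ≤ ∏ i, ‖z - (a i : ℂ)‖ := by
          apply Finset.prod_le_prod (fun _ _ => by positivity)
          intro i _
          have h1 : ‖((a i : ℤ) : ℂ)‖ ≤ H := by
            rw [Complex.norm_intCast]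
            have := ha i
            have h2 : ((|a i| : ℤ) : ℝ) ≤ ((H : ℤ) : ℝ) := by exact_mod_cast this
            rw [Int.cast_abs] at h2
            simpa using h2
          have h2 : ‖z‖ - ‖((a i : ℤ) : ℂ)‖ ≤ ‖z - (a i : ℂ)‖ := norm_sub_norm_le _ _
          rw [← hR] at h2
          linarith
  -- the other factor
  have hgz : aeval z g = (∑ j ∈ Finset.range (n - k), (g.coeff j : ℂ) * z ^ j) + z ^ (n - k) := by
    rw [aeval_eq_sum_range, hd, Finset.sum_range_succ]
    have h4 : g.coeff (n - k) = 1 := by rw [← hd]; exact hg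
    rw [h4, one_smul]
    congr 1
    apply Finset.sum_congr rfl
    intro j _
    rw [zsmul_eq_mul]
  have hS : ‖∑ j ∈ Finset.range (n - k), (g.coeff j : ℂ) * z ^ j‖ ≤ R ^ (n - k) / 3 := by
    refine (norm_sum_le _ _).trans (le_trans ?_ (geom4 R hR0.le (n - k)))
    apply Finset.sum_le_sum
    intro j hj
    have hj' := Finset.mem_range.1 hj
    obtain ⟨h1, h2⟩ := hgj j hj'
    rw [norm_mul, norm_pow, ← hR, Complex.norm_intCast]
    have h3 : |((g.coeff j : ℤ) : ℝ)| ≤ (H : ℝ) ^ (n - k - j) := by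
      rw [abs_of_nonneg (by exact_mod_cast h1)]
      exact_mod_cast h2
    have h4 : (H : ℝ) ^ (n - k - j) ≤ (R / 4) ^ (n - k - j) :=
      pow_le_pow_left₀ (by positivity) (by linarith) _
    exact mul_le_mul_of_nonneg_right (h3.trans h4) (by positivity)
  have hG : 2 / 3 * R ^ (n - k) ≤ ‖aeval z g‖ := by
    rw [hgz]
    have h1 : ‖z ^ (n - k)‖ - ‖∑ j ∈ Finset.range (n - k), (g.coeff j : ℂ) * z ^ j‖ ≤
        ‖(∑ j ∈ Finset.range (n - k), (g.coeff j : ℂ) * z ^ j) + z ^ (n - k)‖ := by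
      have := norm_sub_norm_le (z ^ (n - k)) (-(∑ j ∈ Finset.range (n - k), (g.coeff j : ℂ) * z ^ j))
      rw [norm_neg, sub_neg_eq_add, add_comm (z ^ (n - k))] at this
      exact this
    rw [norm_pow, ← hR] at h1
    linarith
  -- conclusion
  have hmul : ‖∏ i, (z - (a i : ℂ))‖ * ‖aeval z g‖ = (c : ℝ) := by
    rw [aeval_pol] at hz
    have h1 : (∏ i, (z - (a i : ℂ))) * aeval z g = -(c : ℂ) := eq_neg_of_add_eq_zero_left hz
    rw [← norm_mul, h1, norm_neg, Complex.norm_intCast, abs_of_nonneg]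
    have : (0 : ℤ) ≤ c := le_trans (by positivity) hc1.le
    exact_mod_cast this
  have hlow : (2 / 3 * R) ^ n ≤ (c : ℝ) := by
    rw [← hmul]
    calc (2 / 3 * R) ^ n = (2 / 3) ^ n * R ^ n := mul_pow _ _ _
      _ ≤ ((3 / 4) ^ k * (2 / 3)) * R ^ n := by
          apply mul_le_mul_of_nonneg_right _ (by positivity)
          calc ((2 : ℝ) / 3) ^ n ≤ (2 / 3) ^ (k + 1) :=
                pow_le_pow_of_le_one (by norm_num) (by norm_num) hkn
            _ = (2 / 3) ^ k * (2 / 3) := pow_succ _ _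
            _ ≤ (3 / 4) ^ k * (2 / 3) := by
                apply mul_le_mul_of_nonneg_right _ (by norm_num)
                exact pow_le_pow_left₀ (by norm_num) (by norm_num) k
      _ = (3 / 4 * R) ^ k * (2 / 3 * R ^ (n - k)) := by
          rw [mul_pow]
          have : R ^ n = R ^ k * R ^ (n - k) := by rw [← pow_add]; congr 1; omega
          rw [this]; ring
      _ ≤ _ := mul_le_mul hA hG (by positivity) (norm_nonneg _)
  have hup : (c : ℝ) ≤ (K * H : ℝ) ^ n := by exact_mod_cast hc2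
  have hlt : (K * H : ℝ) ^ n < (2 / 3 * R) ^ n := by
    apply pow_lt_pow_left₀ _ (by positivity) (by omega)
    nlinarith
  linarith

end Pool.Agent.D0H12.KCQ
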