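import Pool.Agent.D0H12.EC.Du
import Pool.Agent.D0H44.KC.Stm

/-! Project KC, package DX: duality for one character (after `D0H12/EC/Du.lean`). -/

set_option autoImplicit false

open Finset MeasureTheory

namespace Pool.Agent.D0H12.KC

open H343 (ex)
open Pool.Agent.D0H44.EL
open Pool.Agent.D0H44.FR (w w1 w2 S_W)
open Pool.Agent.D0H44.EC (gg)
open Pool.Agent.D0H44.KC (pc S_DX)
open Pool.Agent.D0H12.EC (gg_meas gg_bound nrm1 ex_c)

theorem dual_gen (hW : S_W) (H : ℝ → ℂ) (hHm : Measurable H) (q R : ℕ) (G : Finset ℕ) (x0 : ℝ)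
    (hx1 : 1 ≤ x0) (hq : 1 ≤ q) (hR : 1 ≤ R) (hG : ∀ r ∈ G, R < r ∧ r ≤ 2 * R) (K : ℝ)
    (hK0 : 0 ≤ K) (hKb : ∀ x ∈ Set.Ioc x0 (2 * x0), ‖H x‖ ≤ K) :
    (∑ r ∈ G, ‖∫ u in x0..(2 * x0), H u * gg x0 q r u‖) ^ 2 ≤
      (∫ u in x0..(2 * x0), ‖H u‖ ^ 2) * ((300 / x0 ^ 2 + 100 / ((R : ℝ) * q) ^ 2) *
        (G.card * (2 * x0 + G.card * (4 * (R : ℝ) ^ 2 * q)))) := by
  have hW' := hW
  obtain ⟨-, -, -, hw01, hw1, -⟩ := hW'
  have hx0 : 0 < x0 := by linarith
  have hq0 : (0 : ℝ) < q := by exact_mod_cast hq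
  have hR0 : (0 : ℝ) < R := by exact_mod_cast hR
  set X : ℝ := 2 * x0 with hXd
  have hX0 : 0 ≤ X := by positivity
  have hle : x0 ≤ X := by linarith
  set J : ℕ → ℂ := fun r => ∫ u in x0..X, H u * gg x0 q r u with hJ
  -- phases
  set b : ℕ → ℂ := fun r => (starRingEnd ℂ) (J r) / ‖J r‖ with hb
  have hb1 : ∀ r, ‖b r‖ ≤ 1 := by
    intro r
    rw [hb]
    simp only
    rw [norm_div, RCLike.norm_conj, Complex.norm_real, norm_norm]
    exact div_self_le_one _
  have hb2 : ∀ r, b r * J r = (‖J r‖ : ℂ) := by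
    intro r
    rw [hb]
    simp only
    by_cases h0 : J r = 0
    · rw [h0]; simp
    · have : (‖J r‖ : ℂ) ≠ 0 := by
        exact_mod_cast (norm_ne_zero_iff.2 h0)
      rw [div_mul_eq_mul_div, Complex.conj_mul', sq, mul_div_assoc, div_self this, mul_one]
  set s : Set ℝ := Set.Ioc x0 X with hs
  have hfin : volume s ≠ ⊤ := measure_Ioc_lt_top.ne
  -- the functions
  set F : ℝ → ℂ := fun x => ∑ r ∈ G, b r * gg x0 q r x with hF
  set P : ℝ → ℂ := fun x => ∑ r ∈ G, b r * ex (x / ((r * q : ℕ) : ℝ)) with hP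
  set P' : ℝ → ℂ := fun x => ∑ r ∈ G, (b r * ((R : ℂ) / r)) * ex (x / ((r * q : ℕ) : ℝ)) with hP'
  have hPc : Continuous P := by
    rw [hP]
    apply continuous_finsetSum
    intro r _
    exact continuous_const.mul (ex_c _)
  have hPc' : Continuous P' := by
    rw [hP']
    apply continuous_finsetSum
    intro r _
    exact continuous_const.mul (ex_c _)
  have hFm : Measurable F := by
    rw [hF]
    apply Finset.measurable_fun_sum
    intro r _
    exact (gg_meas hW x0 q r).const_mul _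
  have hFeq : ∀ x, F x = ((w1 (x / x0) / x0 : ℝ) : ℂ) * P x +
      ((w (x / x0) : ℝ) : ℂ) * (((2 * Real.pi / (R * q) : ℝ) : ℂ) * Complex.I * P' x) := by
    intro x
    rw [hF, hP, hP']
    simp only
    rw [mul_sum, mul_sum, mul_sum, ← sum_add_distrib]
    apply sum_congr rfl
    intro r hr
    have hr0 : (r : ℂ) ≠ 0 := by
      have := (hG r hr).1
      exact_mod_cast (by omega : r ≠ 0)
    have hRc : (R : ℂ) ≠ 0 := by exact_mod_cast hR0.ne'
    have hqc : (q : ℂ) ≠ 0 := by exact_mod_cast hq0.ne'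
    have hxc : (x0 : ℂ) ≠ 0 := by exact_mod_cast hx0.ne'
    unfold gg
    push_cast
    field_simp
  have hFb : ∀ x, ‖F x‖ ^ 2 ≤ 288 / x0 ^ 2 * ‖P x‖ ^ 2 + 80 / ((R : ℝ) * q) ^ 2 * ‖P' x‖ ^ 2 := by
    intro x
    rw [hFeq]
    have h1 : ‖((w1 (x / x0) / x0 : ℝ) : ℂ) * P x‖ ≤ 12 / x0 * ‖P x‖ := by
      rw [norm_mul, Complex.norm_real, Real.norm_eq_abs, abs_div, abs_of_pos hx0]
      apply mul_le_mul_of_nonneg_right _ (norm_nonneg _)
      apply div_le_div_of_nonneg_right (hw1 _) hx0.le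
    have h2 : ‖((w (x / x0) : ℝ) : ℂ) * (((2 * Real.pi / (R * q) : ℝ) : ℂ) * Complex.I * P' x)‖ ≤
        2 * Real.pi / (R * q) * ‖P' x‖ := by
      rw [norm_mul, norm_mul, norm_mul, Complex.norm_I, mul_one, Complex.norm_real,
        Complex.norm_real, Real.norm_eq_abs, Real.norm_eq_abs,
        abs_of_nonneg (hw01 _).1, abs_of_nonneg (by positivity : 0 ≤ 2 * Real.pi / (R * q : ℝ))]
      calc w (x / x0) * (2 * Real.pi / (R * q) * ‖P' x‖) ≤ 1 * (2 * Real.pi / (R * q) * ‖P' x‖) := by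
            apply mul_le_mul_of_nonneg_right (hw01 _).2
            positivity
        _ = _ := one_mul _
    have h4 := norm_add_le (((w1 (x / x0) / x0 : ℝ) : ℂ) * P x)
      (((w (x / x0) : ℝ) : ℂ) * (((2 * Real.pi / (R * q) : ℝ) : ℂ) * Complex.I * P' x))
    have h5 : ‖((w1 (x / x0) / x0 : ℝ) : ℂ) * P x +
      ((w (x / x0) : ℝ) : ℂ) * (((2 * Real.pi / (R * q) : ℝ) : ℂ) * Complex.I * P' x)‖ ≤
      12 / x0 * ‖P x‖ + 2 * Real.pi / (R * q) * ‖P' x‖ := by linarith
    have h6 : (12 / x0 * ‖P x‖ + 2 * Real.pi / (R * q) * ‖P' x‖) ^ 2 ≤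
        2 * (12 / x0 * ‖P x‖) ^ 2 + 2 * (2 * Real.pi / (R * q) * ‖P' x‖) ^ 2 := by
      nlinarith [sq_nonneg (12 / x0 * ‖P x‖ - 2 * Real.pi / (R * q) * ‖P' x‖)]
    have h7 : 2 * (2 * Real.pi / (R * q) * ‖P' x‖) ^ 2 ≤ 80 / ((R : ℝ) * q) ^ 2 * ‖P' x‖ ^ 2 := by
      have hpi : Real.pi ^ 2 ≤ 10 := by
        have h8 := Real.pi_lt_d2
        have h9 := Real.pi_pos
        nlinarith
      have e : 2 * (2 * Real.pi / (R * q) * ‖P' x‖) ^ 2 =
          (8 * Real.pi ^ 2) / ((R : ℝ) * q) ^ 2 * ‖P' x‖ ^ 2 := by ring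
      rw [e]
      apply mul_le_mul_of_nonneg_right _ (by positivity)
      apply div_le_div_of_nonneg_right _ (by positivity)
      linarith
    have h8 : 2 * (12 / x0 * ‖P x‖) ^ 2 = 288 / x0 ^ 2 * ‖P x‖ ^ 2 := by ring
    calc _ ≤ (12 / x0 * ‖P x‖ + 2 * Real.pi / (R * q) * ‖P' x‖) ^ 2 := by
          gcongr
      _ ≤ _ := by linarith
  -- integrability
  obtain ⟨KF, hKF⟩ : ∃ KF : ℝ, ∀ x, ‖F x‖ ≤ KF := by
    refine ⟨∑ r ∈ G, (12 / x0 + 2 * Real.pi / ((r * q : ℕ) : ℝ)), fun x => ?_⟩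
    rw [hF]
    refine (norm_sum_le _ _).trans (sum_le_sum fun r _ => ?_)
    rw [norm_mul]
    have h1 := gg_bound hW x0 hx0 q r x
    calc ‖b r‖ * ‖gg x0 q r x‖ ≤ 1 * ‖gg x0 q r x‖ :=
          mul_le_mul_of_nonneg_right (hb1 r) (norm_nonneg _)
      _ ≤ _ := by rw [one_mul]; exact h1
  have hEr2 : IntegrableOn (fun x => ‖H x‖ ^ 2) s := by
    refine Measure.integrableOn_of_bounded (M := K ^ 2) hfin
      (hHm.norm.pow_const 2).aestronglyMeasurable ?_
    rw [ae_restrict_iff' measurableSet_Ioc]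
    refine Filter.Eventually.of_forall fun y hy => ?_
    rw [Real.norm_eq_abs, abs_pow, abs_norm]
    have := hKb y hy
    gcongr
  have hF2 : IntegrableOn (fun x => ‖F x‖ ^ 2) s := by
    refine Measure.integrableOn_of_bounded (M := KF ^ 2) hfin
      ((hFm.norm).pow_const 2).aestronglyMeasurable ?_
    refine Filter.Eventually.of_forall fun y => ?_
    rw [Real.norm_eq_abs, abs_pow, abs_norm]
    have := hKF y
    gcongr
  have hEg : ∀ r, IntegrableOn (fun x => H x * gg x0 q r x) s := by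
    intro r
    refine Measure.integrableOn_of_bounded (M := K * (12 / x0 + 2 * Real.pi / ((r * q : ℕ) : ℝ))) hfin
      (hHm.mul (gg_meas hW x0 q r)).aestronglyMeasurable ?_
    rw [ae_restrict_iff' measurableSet_Ioc]
    refine Filter.Eventually.of_forall fun y hy => ?_
    rw [norm_mul]
    exact mul_le_mul (hKb y hy) (gg_bound hW x0 hx0 q r y) (norm_nonneg _) hK0
  -- the sum as an integral
  have hS : ((∑ r ∈ G, ‖J r‖ : ℝ) : ℂ) = ∫ x in s, H x * F x := by
    push_cast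
    calc ∑ r ∈ G, (‖J r‖ : ℂ) = ∑ r ∈ G, b r * J r :=
          sum_congr rfl fun r _ => (hb2 r).symm
      _ = ∑ r ∈ G, ∫ x in s, b r * (H x * gg x0 q r x) := by
          apply sum_congr rfl
          intro r _
          rw [hJ]
          simp only
          rw [intervalIntegral.integral_of_le hle, integral_const_mul]
      _ = _ := by
          rw [← integral_finsetSum]
          · apply integral_congr_ae
            refine Filter.Eventually.of_forall fun x => ?_
            simp only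
            rw [hF]
            simp only
            rw [mul_sum]
            apply sum_congr rfl
            intro r _
            ring
          · intro r _
            exact (hEg r).const_mul _
  set S : ℝ := ∑ r ∈ G, ‖J r‖ with hSdef
  have hS1 : S ≤ ∫ x in s, ‖H x‖ * ‖F x‖ := by
    calc S ≤ ‖((S : ℝ) : ℂ)‖ := by rw [Complex.norm_real]; exact le_abs_self _
      _ = ‖∫ x in s, H x * F x‖ := by rw [hS]
      _ ≤ _ := by
          refine (norm_integral_le_integral_norm _).trans (le_of_eq ?_)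
          apply integral_congr_ae
          refine Filter.Eventually.of_forall fun x => ?_
          simp only
          rw [norm_mul]
  set A : ℝ := ∫ x in x0..X, ‖H x‖ ^ 2 with hA
  have hAs : A = ∫ x in s, ‖H x‖ ^ 2 := by
    rw [hA, intervalIntegral.integral_of_le hle]
  have hA0 : 0 ≤ A := by
    rw [hAs]
    apply integral_nonneg
    intro x
    positivity
  set B0 : ℝ := G.card * (X + G.card * (4 * (R : ℝ) ^ 2 * q)) with hB0
  have hB00 : 0 ≤ B0 := by positivity
  have hsub : s ⊆ Set.Ioc 0 X := Set.Ioc_subset_Ioc hx0.le le_rfl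
  have hPint : ∀ (T : ℝ → ℂ), Continuous T →
      ∫ x in (0 : ℝ)..X, ‖T x‖ ^ 2 ≤ B0 → ∫ x in s, ‖T x‖ ^ 2 ≤ B0 := by
    intro T hT hle'
    refine le_trans ?_ hle'
    rw [intervalIntegral.integral_of_le hX0]
    apply setIntegral_mono_set
    · exact ((hT.norm.pow 2).continuousOn.integrableOn_Icc).mono_set Set.Ioc_subset_Icc_self
    · exact Filter.Eventually.of_forall fun x => by positivity
    · exact hsub.eventuallyLE
  have hPb : ∫ x in s, ‖P x‖ ^ 2 ≤ B0 :=
    hPint P hPc (nrm1 q R G b X hq hG (fun r _ => hb1 r) hX0)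
  have hPb' : ∫ x in s, ‖P' x‖ ^ 2 ≤ B0 := by
    refine hPint P' hPc' (nrm1 q R G (fun r => b r * ((R : ℂ) / r)) X hq hG (fun r hr => ?_) hX0)
    have hr := hG r hr
    have hr0 : (0 : ℝ) < r := by exact_mod_cast (by omega : 0 < r)
    rw [norm_mul, norm_div (R : ℂ) (r : ℂ), Complex.norm_natCast, Complex.norm_natCast]
    have h1 : (R : ℝ) / r ≤ 1 := by
      rw [div_le_one hr0]
      exact_mod_cast hr.1.le
    exact mul_le_one₀ (hb1 r) (by positivity) h1
  have hPi : IntegrableOn (fun x => ‖P x‖ ^ 2) s :=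
    ((hPc.norm.pow 2).continuousOn.integrableOn_Icc).mono_set Set.Ioc_subset_Icc_self
  have hPi' : IntegrableOn (fun x => ‖P' x‖ ^ 2) s :=
    ((hPc'.norm.pow 2).continuousOn.integrableOn_Icc).mono_set Set.Ioc_subset_Icc_self
  set cf : ℝ := 300 / x0 ^ 2 + 100 / ((R : ℝ) * q) ^ 2 with hcf
  have hcf0 : 0 ≤ cf := by positivity
  have hFI : ∫ x in s, ‖F x‖ ^ 2 ≤ cf * B0 := by
    calc ∫ x in s, ‖F x‖ ^ 2 ≤ ∫ x in s,
        (288 / x0 ^ 2 * ‖P x‖ ^ 2 + 80 / ((R : ℝ) * q) ^ 2 * ‖P' x‖ ^ 2) := by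
          apply integral_mono_of_nonneg
          · exact Filter.Eventually.of_forall fun x => by positivity
          · exact (hPi.const_mul _).add (hPi'.const_mul _)
          · exact Filter.Eventually.of_forall fun x => hFb x
      _ = 288 / x0 ^ 2 * (∫ x in s, ‖P x‖ ^ 2) + 80 / ((R : ℝ) * q) ^ 2 * (∫ x in s, ‖P' x‖ ^ 2) := by
          rw [integral_add (hPi.const_mul _) (hPi'.const_mul _), integral_const_mul,
            integral_const_mul]
      _ ≤ 288 / x0 ^ 2 * B0 + 80 / ((R : ℝ) * q) ^ 2 * B0 := by gcongr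
      _ ≤ 300 / x0 ^ 2 * B0 + 100 / ((R : ℝ) * q) ^ 2 * B0 := by
          gcongr
          · norm_num
          · norm_num
      _ = _ := by rw [hcf]; ring
  have hgoal : S ^ 2 ≤ A * (cf * B0) := by
    apply cs_arith S A (cf * B0) hA0 (sum_nonneg fun _ _ => norm_nonneg _) (by positivity)
    intro l hl
    have h3 : 2 * ∫ x in s, ‖H x‖ * ‖F x‖ ≤ l * (∫ x in s, ‖H x‖ ^ 2) + (1 / l) *
        ∫ x in s, ‖F x‖ ^ 2 := by
      rw [← integral_const_mul, ← integral_const_mul, ← integral_const_mul, ← integral_add]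
      · apply integral_mono_of_nonneg
        · exact Filter.Eventually.of_forall fun x => by positivity
        · exact (hEr2.const_mul l).add (hF2.const_mul (1 / l))
        · refine Filter.Eventually.of_forall fun x => ?_
          simp only
          have h4 : 0 ≤ (l * ‖H x‖ - ‖F x‖) ^ 2 / l := by positivity
          have h5 : (l * ‖H x‖ - ‖F x‖) ^ 2 / l = l * ‖H x‖ ^ 2 + 1 / l * ‖F x‖ ^ 2 -
              2 * (‖H x‖ * ‖F x‖) := by
            field_simp
            ring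
          linarith
      · exact hEr2.const_mul l
      · exact hF2.const_mul (1 / l)
    have h4 : (1 / l) * ∫ x in s, ‖F x‖ ^ 2 ≤ (1 / l) * (cf * B0) := by gcongr
    have h5 : (1 / l) * (cf * B0) = cf * B0 / l := by ring
    rw [h5] at h4
    rw [hAs]
    linarith
  exact hgoal

theorem pc_meas (q : ℕ) (χ : DirichletCharacter ℂ q) : Measurable (pc q χ) := by
  unfold pc
  exact (measurable_from_nat (f := fun k : ℕ => ∑ n ∈ Icc 1 k,
    ((ArithmeticFunction.vonMangoldt n : ℝ) : ℂ) * χ (n : ZMod q))).comp Nat.measurable_floor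

theorem pc_bound (q : ℕ) (χ : DirichletCharacter ℂ q) (Y x : ℝ) (hxY : x ≤ Y) :
    ‖pc q χ x‖ ≤ ∑ n ∈ Icc 1 ⌊Y⌋₊, ArithmeticFunction.vonMangoldt n := by
  unfold pc
  refine (norm_sum_le _ _).trans ?_
  have h1 : ∑ n ∈ Icc 1 ⌊x⌋₊, ‖((ArithmeticFunction.vonMangoldt n : ℝ) : ℂ) * χ (n : ZMod q)‖ ≤
      ∑ n ∈ Icc 1 ⌊x⌋₊, ArithmeticFunction.vonMangoldt n := by
    refine sum_le_sum fun n _ => ?_
    rw [norm_mul, Complex.norm_real, Real.norm_of_nonneg ArithmeticFunction.vonMangoldt_nonneg]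
    exact mul_le_of_le_one_right ArithmeticFunction.vonMangoldt_nonneg (χ.norm_le_one _)
  refine h1.trans ?_
  apply sum_le_sum_of_subset_of_nonneg
  · exact Icc_subset_Icc le_rfl (Nat.floor_le_floor hxY)
  · intro _ _ _
    exact ArithmeticFunction.vonMangoldt_nonneg

theorem t_DX (hW : S_W) : S_DX := by
  intro q R χ G x hx hq hR hG
  exact dual_gen hW (pc q χ) (pc_meas q χ) q R G x hx hq hR hG _
    (sum_nonneg fun _ _ => ArithmeticFunction.vonMangoldt_nonneg)
    (fun u hu => pc_bound q χ (2 * x) u hu.2)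

end Pool.Agent.D0H12.KC
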