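import Mathlib
import Pool.Agent.D0H34.KC.Stm

set_option autoImplicit false

/-! # Module GW of project KC (helper34) -/

open Polynomial

namespace Pool.Agent.D0H12.KCQ

open Pool.Agent.D0H34.KC

/-- **GW.** -/
theorem t_GW : S_GW := by
  classical
  intro k d w a c hw ha hne g hg hd hc i hdvd
  have hwp : Prime (w : ℤ) := Nat.prime_iff_prime_int.1 hw
  -- the derivative at `a i`
  have h1 : (pol a g c).derivative.eval (a i) =
      (∏ j ∈ Finset.univ.erase i, (a i - a j)) * g.eval (a i) := by
    have hP : (∏ j, (X - C (a j)) : ℤ[X]) = (X - C (a i)) * ∏ j ∈ Finset.univ.erase i, (X - C (a j)) :=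
      (Finset.mul_prod_erase Finset.univ (fun j => (X - C (a j) : ℤ[X])) (Finset.mem_univ i)).symm
    unfold pol
    rw [derivative_add, derivative_C, add_zero, hP, mul_assoc, derivative_mul]
    simp only [derivative_sub, derivative_X, derivative_C, sub_zero, one_mul, eval_add, eval_mul, eval_sub,
      eval_X, eval_C, sub_self, zero_mul, add_zero, eval_prod]
  rw [h1] at hdvd
  rcases hwp.dvd_or_dvd hdvd with h2 | h2
  · obtain ⟨j, hj, h3⟩ := (hwp.dvd_finsetProd_iff _).1 h2
    exact hne i j (Finset.ne_of_mem_erase hj).symm h3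
  · -- `g (a i) ≡ (a i) ^ d`
    have h3 : g.eval (a i) = (∑ j ∈ Finset.range d, g.coeff j * a i ^ j) + a i ^ d := by
      rw [eval_eq_sum_range, hd, Finset.sum_range_succ]
      have h4 : g.coeff d = 1 := by rw [← hd]; exact hg
      rw [h4, one_mul]
    rw [h3] at h2
    have h4 : (w : ℤ) ∣ ∑ j ∈ Finset.range d, g.coeff j * a i ^ j :=
      Finset.dvd_sum (fun j hj => (hc j (Finset.mem_range.1 hj)).mul_right _)
    have h5 : (w : ℤ) ∣ a i ^ d := (dvd_add_right h4).1 h2
    exact ha i (hwp.dvd_of_dvd_pow h5)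

end Pool.Agent.D0H12.KCQ
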