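import Pool.Agent.D0H34.KC.Stm2

/-!
# Project KC, NUM2: the final inequality with `k` more factors

Adapted from `Pool.Agent.D0H56.KC.Num` (helper56).
-/

set_option autoImplicit false

namespace Pool.Agent.D0H12.KCQ.Nm

open Pool.Agent.D0H34.KC

theorem sum_sub (d : ℕ) : ((∑ j ∈ Finset.range d, (d - j) : ℕ) : ℝ) = (d : ℝ) * (d + 1) / 2 := by
  induction d with
  | zero => simp
  | succ d ih =>
    rw [Finset.sum_range_succ']
    have : ∑ k ∈ Finset.range d, (d + 1 - (k + 1)) = ∑ k ∈ Finset.range d, (d - k) :=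
      Finset.sum_congr rfl fun k _ => by omega
    rw [this, Nat.cast_add, ih]
    push_cast
    ring

theorem floor_half (a M : ℕ) (hM : 1 ≤ M) (ha : 2 * M ≤ a) :
    (a : ℝ) / (2 * M) ≤ ((a / M : ℕ) : ℝ) := by
  have h1 := Nat.div_add_mod a M
  have h2 := Nat.mod_lt a (show 0 < M by omega)
  have hMr : (0 : ℝ) < M := by exact_mod_cast hM
  rw [div_le_iff₀ (by positivity)]
  have h3 : a ≤ (a / M) * (2 * M) := by nlinarith
  exact_mod_cast h3

/-- **NUM2.** -/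
theorem num2 : S_NUM2 := by
  intro n d k M K H₀ hn hM hK
  have hn' : (2 : ℝ) ≤ n := by exact_mod_cast hn
  have hKr : (1 : ℝ) ≤ K := by exact_mod_cast hK
  have hMr : (1 : ℝ) ≤ M := by exact_mod_cast hM
  obtain ⟨N, hN⟩ : ∃ N : ℝ, N = (n : ℝ) * ((n : ℝ) - 1) := ⟨_, rfl⟩
  have hN2 : 2 ≤ N := by rw [hN]; nlinarith
  have hN0 : 0 < N := by linarith
  obtain ⟨E, hE⟩ : ∃ E : ℝ, E = ((d : ℝ) * (d + 1)) / 2 + k - (n + 1) := ⟨_, rfl⟩
  obtain ⟨f, hf⟩ : ∃ f : ℝ, f = (n.factorial : ℝ) ^ 2 := ⟨_, rfl⟩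
  have hf1 : 1 ≤ f := by
    rw [hf]
    exact one_le_pow₀ (by exact_mod_cast Nat.one_le_iff_ne_zero.2 (Nat.factorial_ne_zero n))
  have hf0 : 0 < f := by linarith
  have hfN : 1 ≤ f ^ (1 / N) := Real.one_le_rpow hf1 (by positivity)
  obtain ⟨κ₀, hκ₀⟩ : ∃ κ₀ : ℝ, κ₀ = 1 / (4 * K * f ^ (1 / N)) := ⟨_, rfl⟩
  have hden : 1 ≤ 4 * (K : ℝ) * f ^ (1 / N) := by nlinarith
  have hκ₀0 : 0 < κ₀ := by rw [hκ₀]; positivity
  have hκ₀1 : κ₀ ≤ 1 := by rw [hκ₀, div_le_one (by positivity)]; exact hden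
  obtain ⟨κ, hκ⟩ : ∃ κ : ℝ, κ = κ₀ / 2 := ⟨_, rfl⟩
  have hκ0 : 0 < κ := by rw [hκ]; positivity
  obtain ⟨m, hm⟩ : ∃ m : ℝ, m = min (κ ^ E) 1 := ⟨_, rfl⟩
  have hm0 : 0 < m := by rw [hm]; exact lt_min (Real.rpow_pos_of_pos hκ0 _) one_pos
  refine ⟨m / ((17 * K) ^ (n + 1) * (2 * M) ^ d * (2 * M) ^ k), by positivity,
    ((2 * M + H₀ + 2) / κ₀) ^ N, fun X hX => ?_⟩
  have hb0 : (0 : ℝ) < (2 * M + H₀ + 2) / κ₀ := by positivity
  have hX0 : 0 < X := lt_of_lt_of_le (Real.rpow_pos_of_pos hb0 _) hX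
  obtain ⟨Y, hY⟩ : ∃ Y : ℝ, Y = X ^ (1 / N) := ⟨_, rfl⟩
  have hY0 : 0 < Y := by rw [hY]; exact Real.rpow_pos_of_pos hX0 _
  have hYX : Y ^ N = X := by
    rw [hY, ← Real.rpow_mul hX0.le, one_div_mul_cancel hN0.ne', Real.rpow_one]
  have hYlow : (2 * M + H₀ + 2) / κ₀ ≤ Y := by
    rw [hY]
    have h := Real.rpow_le_rpow (by positivity) hX (one_div_nonneg.2 hN0.le)
    rwa [← Real.rpow_mul hb0.le, mul_one_div_cancel hN0.ne', Real.rpow_one] at h
  have h1 : 2 * (M : ℝ) + H₀ + 2 ≤ κ₀ * Y := by rwa [div_le_iff₀' hκ₀0] at hYlow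
  have hH₀0 : (0 : ℝ) ≤ H₀ := Nat.cast_nonneg _
  obtain ⟨H, hH⟩ : ∃ H : ℕ, H = ⌊κ₀ * Y⌋₊ := ⟨_, rfl⟩
  have hHu : (H : ℝ) ≤ κ₀ * Y := by rw [hH]; exact Nat.floor_le (by positivity)
  have hHl : κ₀ * Y - 1 < H := by rw [hH]; exact Nat.sub_one_lt_floor _
  have hHl2 : κ * Y ≤ H := by
    have : κ * Y = κ₀ * Y / 2 := by rw [hκ]; ring
    rw [this]; linarith
  have hH2M : 2 * (M : ℝ) ≤ H := by linarith
  have hHH₀ : (H₀ : ℝ) ≤ H := by linarith
  have hH1 : (1 : ℝ) ≤ H := by linarith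
  have hHpos : (0 : ℝ) < H := by linarith
  have hHY : (H : ℝ) ≤ Y := hHu.trans (mul_le_of_le_one_left hY0.le hκ₀1)
  refine ⟨H, by exact_mod_cast hHH₀, by exact_mod_cast hH1, ?_, ?_⟩
  · have hcast : (((n * (n - 1) : ℕ)) : ℝ) = N := by
      rw [Nat.cast_mul, Nat.cast_sub (by omega), hN, Nat.cast_one]
    have h2 : (4 * K * H : ℝ) ≤ Y / f ^ (1 / N) := by
      have h3 : (4 * K * H : ℝ) ≤ 4 * K * (κ₀ * Y) := by gcongr
      refine h3.trans (le_of_eq ?_)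
      rw [hκ₀]
      field_simp
    have h3 : (4 * K * H : ℝ) ^ (n * (n - 1)) ≤ X / f := by
      calc (4 * K * H : ℝ) ^ (n * (n - 1)) ≤ (Y / f ^ (1 / N)) ^ (n * (n - 1)) :=
            pow_le_pow_left₀ (by positivity) h2 _
        _ = (Y / f ^ (1 / N)) ^ N := by rw [← hcast, Real.rpow_natCast]
        _ = X / f := by
            rw [Real.div_rpow hY0.le (by positivity), hYX, ← Real.rpow_mul hf0.le,
              one_div_mul_cancel hN0.ne', Real.rpow_one]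
    rw [← hf]
    calc f * (4 * K * H : ℝ) ^ (n * (n - 1)) ≤ f * (X / f) := by gcongr
      _ = X := by field_simp
  · rw [← hE, ← hN]
    have h4 : X ^ (E / N) = Y ^ E := by
      rw [hY, ← Real.rpow_mul hX0.le]
      congr 1
      ring
    have h5 : m * Y ^ E ≤ (H : ℝ) ^ E := by
      rcases le_or_gt 0 E with hE0 | hE0
      · calc m * Y ^ E ≤ κ ^ E * Y ^ E := by
              refine mul_le_mul_of_nonneg_right ?_ (Real.rpow_nonneg hY0.le _)
              rw [hm]; exact min_le_left _ _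
          _ = (κ * Y) ^ E := (Real.mul_rpow hκ0.le hY0.le).symm
          _ ≤ (H : ℝ) ^ E := Real.rpow_le_rpow (by positivity) hHl2 hE0
      · calc m * Y ^ E ≤ 1 * Y ^ E := by
              refine mul_le_mul_of_nonneg_right ?_ (Real.rpow_nonneg hY0.le _)
              rw [hm]; exact min_le_right _ _
          _ = Y ^ E := one_mul _
          _ ≤ (H : ℝ) ^ E := Real.rpow_le_rpow_of_nonpos hHpos hHY hE0.le
    have h6 : (H : ℝ) ^ E * (H : ℝ) ^ (n + 1) = (H : ℝ) ^ k * ∏ j ∈ Finset.range d, (H : ℝ) ^ (d - j) := by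
      rw [Finset.prod_pow_eq_pow_sum, ← Real.rpow_natCast (H : ℝ) (n + 1), ← Real.rpow_natCast (H : ℝ) k,
        ← Real.rpow_natCast (H : ℝ) (∑ j ∈ Finset.range d, (d - j)), ← Real.rpow_add hHpos,
        ← Real.rpow_add hHpos, sum_sub, hE]
      congr 1
      push_cast
      ring
    have h7 : (∏ j ∈ Finset.range d, (H : ℝ) ^ (d - j)) / (2 * M) ^ d ≤
        ∏ j ∈ Finset.range d, ((H ^ (d - j) / M : ℕ) : ℝ) := by
      have h8 : ((2 * M : ℝ)) ^ d = ∏ _j ∈ Finset.range d, (2 * M : ℝ) := by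
        rw [Finset.prod_const, Finset.card_range]
      rw [h8, ← Finset.prod_div_distrib]
      refine Finset.prod_le_prod (fun j _ => by positivity) fun j hj => ?_
      have hj' : 1 ≤ d - j := by
        have := Finset.mem_range.1 hj
        omega
      have h9 : 2 * M ≤ H ^ (d - j) := by
        have h10 : 2 * M ≤ H := by exact_mod_cast hH2M
        exact h10.trans (Nat.le_self_pow (by omega) H)
      have h11 := floor_half (H ^ (d - j)) M hM h9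
      rw [Nat.cast_pow] at h11
      exact h11
    have h12 : (4 * (4 * K * H) + 1 : ℝ) ≤ 17 * K * H := by
      have : 1 ≤ (K : ℝ) * H := one_le_mul_of_one_le_of_one_le hKr hH1
      nlinarith
    have h13 : ((H : ℝ) / (2 * M)) ^ k ≤ ((H / M : ℕ) : ℝ) ^ k := by
      apply pow_le_pow_left₀ (by positivity)
      exact floor_half H M hM (by exact_mod_cast hH2M)
    refine le_trans ?_ (mul_le_mul h13 h7 (by positivity) (by positivity))
    have h14 : ((H : ℝ) / (2 * M)) ^ k * ((∏ j ∈ Finset.range d, (H : ℝ) ^ (d - j)) / (2 * M) ^ d) =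
        (H : ℝ) ^ E * (H : ℝ) ^ (n + 1) / ((2 * M) ^ d * (2 * M) ^ k) := by
      rw [h6, div_pow]
      field_simp
    rw [h4, h14]
    calc m / ((17 * K) ^ (n + 1) * (2 * M) ^ d * (2 * M) ^ k) * Y ^ E * (4 * (4 * K * H) + 1) ^ (n + 1)
        ≤ m / ((17 * K) ^ (n + 1) * (2 * M) ^ d * (2 * M) ^ k) * Y ^ E * (17 * K * H) ^ (n + 1) := by
          have : 0 ≤ m / ((17 * K : ℝ) ^ (n + 1) * (2 * M) ^ d * (2 * M) ^ k) * Y ^ E := by positivity
          gcongr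
      _ = (m * Y ^ E) * (H : ℝ) ^ (n + 1) / ((2 * M) ^ d * (2 * M) ^ k) := by
          rw [mul_pow (17 * (K : ℝ)) H (n + 1)]
          field_simp
      _ ≤ (H : ℝ) ^ E * (H : ℝ) ^ (n + 1) / ((2 * M) ^ d * (2 * M) ^ k) := by gcongr

end Pool.Agent.D0H12.KCQ.Nm

namespace Pool.Agent.D0H12.KCQ

/-- **NUM2.** -/
theorem t_NUM2 : Pool.Agent.D0H34.KC.S_NUM2 := Nm.num2

end Pool.Agent.D0H12.KCQ
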